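import Pool.Agent.Helper89.GW.Stmts

/-!
# MP_897da6_gt, module SOFT
-/

set_option autoImplicit false

open scoped ContDiff Topology
open Set Filter

namespace GW

theorem soft_bal_open (r : ℝ) : IsOpen (bal r) := by
  unfold bal
  apply isOpen_lt
  · fun_prop
  · exact continuous_const

theorem soft_phi_eq (β : ℝ → ℝ) (F : E → ℝ) (s : ℝ) (p : E) :
    Phi β F s p = p + (s - 1) • Vel β F p := by
  unfold Phi Vel al
  ext i
  fin_cases i <;> simp <;> ring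

theorem soft_phi_one (β : ℝ → ℝ) (F : E → ℝ) (p : E) : Phi β F 1 p = p := by
  rw [soft_phi_eq]
  simp

theorem soft_xh (H : ℝ × E → ℝ) (z : ℝ × E) (v : E)
    (h : ∀ u : E, fderiv ℝ H z (0, u) = om v u) : XH H z = v := by
  unfold XH
  rw [h, h, h, h]
  unfold om ev
  ext i
  fin_cases i <;> simp [Pi.single_apply]

theorem soft_hsol (H : ℝ × E → ℝ) (S : ℝ) (β : ℝ → ℝ) (F : E → ℝ) (p : E)
    (h : ∀ s ∈ Icc 1 S, ∀ u : E, fderiv ℝ H (s, Phi β F s p) (0, u) = om (Vel β F p) u) :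
    HSol H S (fun s => Phi β F s p) := by
  intro s hs
  rw [soft_xh H (s, Phi β F s p) (Vel β F p) (h s hs)]
  have h1 : (fun s => Phi β F s p) = fun s => p + (s - 1) • Vel β F p := by
    ext1 s
    exact soft_phi_eq β F s p
  rw [h1]
  have h2 : HasDerivAt (fun s : ℝ => p + (s - 1) • Vel β F p) (Vel β F p) s := by
    have h3 : HasDerivAt (fun s : ℝ => (s - 1) • Vel β F p) ((1 : ℝ) • Vel β F p) s :=
      ((hasDerivAt_id s).sub_const 1).smul_const (Vel β F p)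
    rw [one_smul] at h3
    exact h3.const_add p
  exact h2.hasDerivWithinAt

/-- module SOFT -/
theorem st_SOFT (hF : ST_FEXT) (hH : ST_HEXT) (hS : ST_SCAL) (hA : ST_HAMF) : ST_SOFT := by
  intro L f t₀ t₁ hlt hcpt hloc hslab hex r hr
  obtain ⟨r0, χ, hr0, hball, hχ⟩ := hex
  obtain ⟨F, β, D⟩ := hF L f t₀ t₁ hlt hcpt hloc hslab
  obtain ⟨S, hS1, hSr⟩ : ∃ S : ℝ, 1 ≤ S ∧ r ≤ Real.sqrt S * r0 := by
    refine ⟨max 1 ((r / r0) ^ 2), le_max_left _ _, ?_⟩
    have h1 : r / r0 ≤ Real.sqrt (max 1 ((r / r0) ^ 2)) := by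
      apply Real.le_sqrt_of_sq_le
      exact le_max_right _ _
    calc r = r / r0 * r0 := by field_simp
      _ ≤ _ := mul_le_mul_of_nonneg_right h1 hr0.le
  obtain ⟨φ, hφ1, hφ2, hφ3, hφ4⟩ := hS L F β t₀ t₁ D r0 χ hr0 hball hχ S hS1
  obtain ⟨H, hHs, hHc, hHd⟩ := hH L F β t₀ t₁ D S hS1
  obtain ⟨θ, hθs, hθω, hθinj, hθ1, hθ2, hθ3⟩ := hA H S hS1 hHs hHc
  have hsol : ∀ p ∈ L, HSol H S (fun s => Phi β F s p) :=
    fun p hp => soft_hsol H S β F p (fun s hs u => hHd s hs p hp u)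
  have key : ∀ q, θ q ∈ L ↔ q ∈ Phi β F S '' L := by
    intro q
    constructor
    · intro hq
      obtain ⟨d, hd, hdS⟩ := hθ2 q
      have h1 := hθ1 d hd
      rw [hdS] at h1
      have h2 := hθ3 d (fun s => Phi β F s (θ q)) hd (hsol _ hq)
        (by show d 1 = Phi β F 1 (θ q); rw [soft_phi_one, h1])
      exact ⟨θ q, hq, h2.symm.trans hdS⟩
    · rintro ⟨p, hp, rfl⟩
      have h1 := hθ1 (fun s => Phi β F s p) (hsol p hp)
      simp only [soft_phi_one] at h1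
      rw [h1]
      exact hp
  have hsub : bal r ⊆ bal (Real.sqrt S * r0) := by
    intro x hx
    have h1 : x 0 ^ 2 + x 1 ^ 2 + x 2 ^ 2 + x 3 ^ 2 < r ^ 2 := hx
    have h2 : r ^ 2 ≤ (Real.sqrt S * r0) ^ 2 := pow_le_pow_left₀ hr.le hSr 2
    exact lt_of_lt_of_le h1 h2
  refine ⟨θ ∘ φ, hθs.comp_contDiffOn (hφ1.mono hsub), ?_, ?_, ?_⟩
  · intro x hx y hy hxy
    exact hφ2 (hsub hx) (hsub hy) (hθinj hxy)
  · intro x hx u v
    have h1 : DifferentiableAt ℝ φ x :=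
      (hφ1.contDiffAt ((soft_bal_open _).mem_nhds (hsub hx))).differentiableAt (by simp)
    have h2 : DifferentiableAt ℝ θ (φ x) := hθs.differentiable (by simp) _
    rw [fderiv_comp x h2 h1]
    simp only [ContinuousLinearMap.comp_apply]
    rw [hθω]
    exact hφ3 x (hsub hx) u v
  · intro x hx
    show θ (φ x) ∈ L ↔ _
    rw [key]
    exact hφ4 x (hsub hx)


end GW
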